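import Pool.Agent.Helper75.Bil.Prol

/-!
BIL-M7b (MP_190632_an): for a solution curve at a fixed `ε`, all `th`-derivatives are bounded
near `0`.
-/

set_option autoImplicit false

namespace Pool.Agent.Helper75.Bil

open Real Set Filter Topology Pool.Agent.Helper58.Bil

lemma SF_qq {E : Type} [NormedAddCommGroup E] [NormedSpace ℝ E]
    {a : ℝ × ℝ × ℝ × E → ℝ} (sa : SF a) : SF (qq a) := by
  have h1 := SF_comp_clm sa (ContinuousLinearMap.fst ℝ E E)
  exact SF_add (SF_smul (SF_smul (SF_const (2 : ℝ)) SF_kt) h1) (SF.pro sa)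

lemma tt_eq (ε : ℝ) {x : ℝ} (hx : 0 < x) : tt ε x = x ^ 2 * ts ε x := by
  unfold tt ts k2
  field_simp

/-- the base system of a solution -/
lemma sol_BS {E : Type} [NormedAddCommGroup E] [NormedSpace ℝ E] [FiniteDimensional ℝ E]
    {a : ℝ × ℝ × ℝ × E → ℝ} {G : ℝ × ℝ × ℝ × E → E} {γ ρ ε₀ : ℝ} {upl : ℝ → E}
    (S : Sys a G γ ρ ε₀ upl) {ε : ℝ} (hε : 0 < ε) {u : ℝ → E} {C : ℝ}
    (h : Sol a G ρ upl ε u C) :
    ∃ r, BS ε γ (γ / 2) r (fun x => x - tt ε x ^ 2 * a (WW ε u x)) u G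
      (fun x => mm a (WW ε (fun y => (u y, th u y)) x)) (Metric.closedBall 0 ρ) := by
  have hK : IsCompact (Metric.closedBall (0 : E) ρ) := isCompact_closedBall _ _
  have hK2 : IsCompact (Metric.closedBall (0 : E) ρ ×ˢ Metric.closedBall (0 : E) C) :=
    hK.prod (isCompact_closedBall _ _)
  have ev1 := near hK ε (Q := fun p => ContDiffAt ℝ ((⊤ : ℕ∞) : WithTop ℕ∞) a p ∧
      0 < 1 - p.2.2.1 * p.2.1 * p.1 * a p) (fun v _ => by
    refine (S.sa 0 v).and ?_
    have hs := (S.sa 0 v).self_of_nhds.continuousAt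
    have hc : ContinuousAt (fun p : ℝ × ℝ × ℝ × E => 1 - p.2.2.1 * p.2.1 * p.1 * a p)
        (0, 0, 0, v) := by
      refine continuousAt_const.sub (ContinuousAt.mul ?_ hs)
      exact Continuous.continuousAt (by fun_prop)
    refine hc.eventually_const_lt ?_
    norm_num)
  have ev2 := near hK2 ε (Q := fun p => 1 - p.1 * p.2.1 * qq a p ≠ 0) (fun v _ => by
    have hs := (SF_qq S.sa 0 v).self_of_nhds.continuousAt
    have hc : ContinuousAt (fun p : ℝ × ℝ × ℝ × (E × E) => 1 - p.1 * p.2.1 * qq a p)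
        (0, 0, 0, v) := by
      refine continuousAt_const.sub (ContinuousAt.mul ?_ hs)
      exact Continuous.continuousAt (by fun_prop)
    refine hc.eventually_ne ?_
    norm_num)
  obtain ⟨r0, hr0, hr0'⟩ := (mem_nhdsGT_iff_exists_Ioo_subset).1 (ev1.and ev2)
  have hr0 : 0 < r0 := hr0
  have hm : 0 < min r0 (1 / 5) := lt_min hr0 (by norm_num)
  have key : ∀ x ∈ Ioo 0 (min r0 (1 / 5)), 0 < x ∧ x < 1 / 5 ∧
      ContDiffAt ℝ ((⊤ : ℕ∞) : WithTop ℕ∞) a (WW ε u x) ∧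
      0 < 1 - x * ts ε x * tt ε x * a (WW ε u x) ∧
      1 - tt ε x * ts ε x * qq a (WW ε (fun y => (u y, th u y)) x) ≠ 0 := by
    intro x hx
    have h1 := hr0' ⟨hx.1, hx.2.trans_le (min_le_left _ _)⟩
    have hux : u x ∈ Metric.closedBall (0 : E) ρ := by
      rw [mem_closedBall_zero_iff]; exact h.bd x hx.1
    have hthx : th u x ∈ Metric.closedBall (0 : E) C := by
      rw [mem_closedBall_zero_iff]; exact h.th1 x hx.1
    have h2 := h1.1 (u x) hux
    have h3 := h1.2 (u x, th u x) ⟨hux, hthx⟩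
    exact ⟨hx.1, hx.2.trans_le (min_le_right _ _), h2.1, h2.2, h3⟩
  have hfx : ∀ x ∈ Ioo 0 (min r0 (1 / 5)), 0 < x - tt ε x ^ 2 * a (WW ε u x) ∧
      x - tt ε x ^ 2 * a (WW ε u x) < x := by
    intro x hx
    obtain ⟨k1, k2, k3, k4, k5⟩ := key x hx
    constructor
    · have e : x - tt ε x ^ 2 * a (WW ε u x) =
          x * (1 - x * ts ε x * tt ε x * a (WW ε u x)) := by
        have := tt_eq ε k1
        linear_combination (-(tt ε x * a (WW ε u x))) * this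
      rw [e]
      exact mul_pos k1 k4
    · have h1 : 0 < tt ε x := mul_pos hε (chi_pos k1)
      have h2 := h.pos x ⟨k1, k2⟩
      have h3 : 0 < tt ε x ^ 2 * a (WW ε u x) := by positivity
      linarith
  refine ⟨min r0 (1 / 5), S.sG, hm, hK, fun x hx => ?_, fun x hx => h.smooth x hx.1, ?_, hfx,
    fun x hx => ?_, ?_, fun v hv => ?_⟩
  · rw [mem_closedBall_zero_iff]; exact h.bd x hx.1
  · intro x hx
    obtain ⟨k1, k2, k3, k4, k5⟩ := key x hx
    have htt : ContinuousAt (tt ε) x :=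
      (chi_smooth.continuous.continuousAt).const_mul ε
    have hts : ContinuousAt (ts ε) x :=
      ((chi_div_smooth 2).continuous.continuousAt).const_mul ε
    have hWW : ContinuousAt (WW ε u) x :=
      htt.prodMk (hts.prodMk (continuousAt_id.prodMk (h.smooth x k1).continuousAt))
    have ha : ContinuousAt (fun x => a (WW ε u x)) x :=
      ContinuousAt.comp (g := a) (x := x) k3.continuousAt hWW
    exact (continuousAt_id.sub ((htt.pow 2).mul ha)).continuousWithinAt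
  · exact h.eq x ⟨(key x hx).1, (key x hx).2.1⟩
  · intro x hx F' _ _ φ hφ
    obtain ⟨k1, k2, k3, k4, k5⟩ := key x hx
    exact th_comp_f k1 (diffAt (h.smooth x k1)) (k3.differentiableAt (by simp)) (hfx x hx).1.ne'
      k5 hφ
  · rw [mem_closedBall_zero_iff] at hv
    exact S.G1 0 ⟨le_rfl, by norm_num⟩ v hv

end Pool.Agent.Helper75.Bil

namespace Pool.Agent.Helper58.Bil

open Real Set Filter Topology Pool.Agent.Helper75.Bil

theorem M7b {E : Type} [NormedAddCommGroup E] [NormedSpace ℝ E] [FiniteDimensional ℝ E]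
    {a : ℝ × ℝ × ℝ × E → ℝ} {G : ℝ × ℝ × ℝ × E → E} {γ ρ ε₀ : ℝ} {upl : ℝ → E}
    (S : Sys a G γ ρ ε₀ upl) :
    ∃ ε₂ > 0, ∀ ε ∈ Ioo 0 ε₂, ∀ (u : ℝ → E) (C : ℝ), Sol a G ρ upl ε u C →
      ∀ k : ℕ, ∃ B : ℝ, ∀ x ∈ Ioc (0 : ℝ) (1 / 10), ‖(th^[k] u) x‖ ≤ B := by
  refine ⟨1, one_pos, fun ε hε u C h k => ?_⟩
  obtain ⟨r, hBS⟩ := sol_BS S hε.1 h
  have hγ := S.γpos
  obtain ⟨q, hq, r', hr'r, m', sm', m0', hM', hBS'⟩ := hBS.prol (by linarith) (SF.mm S.sa)
    (fun x z => mm_base a 0 x z) (fun x _ => rfl) (fun x hx => h.th1 x hx.1)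
  obtain ⟨r1, hr1, B1, hB1⟩ := bound_iter k hε.1 (by linarith) hBS' m' sm' m0' hM'
  set L : (E × E) →L[ℝ] E := ContinuousLinearMap.fst ℝ E E with hL
  set r2 := min r1 r' with hr2
  have hr2pos : 0 < r2 := lt_min hr1 hBS'.rpos
  have hnear : ∀ x ∈ Ioo 0 r2, ‖(th^[k] u) x‖ ≤ ‖L‖ * B1 := by
    intro x hx
    have hx1 : x ∈ Ioo 0 r' := ⟨hx.1, hx.2.trans_le (min_le_right _ _)⟩
    have hx2 : x ∈ Ioo 0 r1 := ⟨hx.1, hx.2.trans_le (min_le_left _ _)⟩
    have e1 := th_iter_clm L isOpen_Ioo k hBS'.sw x hx1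
    have e2 : (fun y => L (u y, q • th u y)) = u := rfl
    rw [e2] at e1
    rw [e1]
    exact (L.le_opNorm _).trans (mul_le_mul_of_nonneg_left (hB1 x hx2) (norm_nonneg _))
  have hcont : ContinuousOn (th^[k] u) (Icc (r2 / 2) (1 / 10)) := by
    intro x hx
    have hx0 : x ∈ Ioi (0 : ℝ) := lt_of_lt_of_le (by linarith) hx.1
    exact (smooth_th_iter (U := Ioi 0) k (fun y hy => h.smooth y hy) x
      hx0).continuousAt.continuousWithinAt
  obtain ⟨B2, hB2⟩ := isCompact_Icc.exists_bound_of_continuousOn hcont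
  refine ⟨max (‖L‖ * B1) B2, fun x hx => ?_⟩
  rcases lt_or_ge x r2 with h1 | h1
  · exact (hnear x ⟨hx.1, h1⟩).trans (le_max_left _ _)
  · exact (hB2 x ⟨by linarith, hx.2⟩).trans (le_max_right _ _)

end Pool.Agent.Helper58.Bil
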