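import Mathlib

/-!
Discrete Gronwall lemma near `0` and elementary facts, for BIL-M7b (MP_190632_an).
-/

set_option autoImplicit false

namespace Pool.Agent.Helper75.Bil

open Set Filter Topology

/-- Discrete Gronwall lemma: a function on `(0, r]` which satisfies a contraction inequality along
`x ↦ f x < x` is bounded. -/
theorem gronwall {f y T : ℝ → ℝ} {r c C : ℝ} (hr : 0 < r)
    (hf : ContinuousOn f (Ioc 0 r)) (hf1 : ∀ x ∈ Ioc 0 r, 0 < f x ∧ f x < x)
    (hy : ContinuousOn y (Ioc 0 r)) (hc : 0 < c)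
    (hT : ∀ x ∈ Ioc 0 r, 0 ≤ T x ∧ c * T x ≤ 1)
    (h : ∀ x ∈ Ioc 0 r, y (f x) ≤ (1 - c * T x) * y x + C * T x) :
    ∃ B, ∀ x ∈ Ioc 0 r, y x ≤ B := by
  have hrr : r ∈ Ioc 0 r := ⟨hr, le_rfl⟩
  have hsub : Icc (f r) r ⊆ Ioc 0 r := fun x hx => ⟨(hf1 r hrr).1.trans_le hx.1, hx.2⟩
  obtain ⟨M, hM⟩ := isCompact_Icc.exists_bound_of_continuousOn (hy.mono hsub)
  refine ⟨max M (C / c), ?_⟩
  by_contra hcon
  push Not at hcon
  set B := max M (C / c) with hB
  set V : Set ℝ := {x | x ∈ Ioc 0 r ∧ B < y x} with hV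
  have hVne : V.Nonempty := by
    obtain ⟨x, hx, hxB⟩ := hcon
    exact ⟨x, hx, hxB⟩
  have hVb : BddAbove V := ⟨r, fun x hx => hx.1.2⟩
  have hCB : C ≤ c * B := by
    have h1 : C / c ≤ B := le_max_right _ _
    rw [div_le_iff₀ hc] at h1
    linarith
  have key : ∀ z ∈ V, ∃ x ∈ V, f x = z ∧ z < x := by
    intro z hz
    have hz1 : z < f r := by
      by_contra hcon2
      push Not at hcon2
      have h1 := hM z ⟨hcon2, hz.1.2⟩
      have h2 : y z ≤ M := (le_abs_self _).trans h1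
      have h3 : M ≤ B := le_max_left _ _
      have h4 := hz.2
      linarith
    have hcont : ContinuousOn f (Icc z r) :=
      hf.mono fun x hx => ⟨hz.1.1.trans_le hx.1, hx.2⟩
    have h1 := intermediate_value_Icc hz.1.2 hcont
    obtain ⟨x, hx, hxz⟩ := h1 ⟨(hf1 z hz.1).2.le, hz1.le⟩
    have hx0 : x ∈ Ioc 0 r := ⟨hz.1.1.trans_le hx.1, hx.2⟩
    have hzx : z < x := by
      have := (hf1 x hx0).2
      rw [hxz] at this
      exact this
    refine ⟨x, ⟨hx0, ?_⟩, hxz, hzx⟩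
    by_contra hcon3
    push Not at hcon3
    have h2 := h x hx0
    rw [hxz] at h2
    obtain ⟨hT0, hT1⟩ := hT x hx0
    have h3 : (1 - c * T x) * y x ≤ (1 - c * T x) * B :=
      mul_le_mul_of_nonneg_left hcon3 (by linarith)
    have h4 : C * T x ≤ c * B * T x := mul_le_mul_of_nonneg_right hCB hT0
    have h5 := hz.2
    nlinarith
  obtain ⟨z, -, hzt, hzV⟩ := exists_seq_tendsto_sSup hVne hVb
  set s := sSup V with hs
  choose g hg1 hg2 hg3 using key
  set x : ℕ → ℝ := fun n => g (z n) (hzV n) with hx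
  have hxV : ∀ n, x n ∈ V := fun n => hg1 _ _
  have hxs : ∀ n, x n ≤ s := fun n => le_csSup hVb (hxV n)
  have hzx : ∀ n, z n ≤ x n := fun n => (hg3 _ _).le
  have hxt : Tendsto x atTop (𝓝 s) :=
    tendsto_of_tendsto_of_tendsto_of_le_of_le hzt tendsto_const_nhds hzx hxs
  have hsr : s ∈ Ioc 0 r := ⟨(hxV 0).1.1.trans_le (hxs 0), csSup_le hVne fun x hx => hx.1.2⟩
  have h1 : Tendsto (fun n => f (x n)) atTop (𝓝 (f s)) := by
    refine (hf s hsr).tendsto.comp ?_
    exact tendsto_nhdsWithin_iff.2 ⟨hxt, Eventually.of_forall fun n => (hxV n).1⟩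
  have h2 : (fun n => f (x n)) = z := funext fun n => hg2 _ _
  rw [h2] at h1
  have h3 := tendsto_nhds_unique h1 hzt
  have h4 := (hf1 s hsr).2
  rw [h3] at h4
  exact lt_irrefl _ h4

end Pool.Agent.Helper75.Bil
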