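import Pool.Agent.Helper75.Bil.Basic
import Pool.Agent.Helper75.Bil.Gron

/-!
Systems of the type `w (f x) = w x - t G[w]` and the bound for `th w` (BIL-M7b, MP_190632_an).
-/

set_option autoImplicit false

namespace Pool.Agent.Helper75.Bil

open Real Set Filter Topology Pool.Agent.Helper58.Bil

/-- systems closed under prolongation -/
structure BS {F : Type} [NormedAddCommGroup F] [NormedSpace ℝ F] (ε γ c r : ℝ) (f : ℝ → ℝ)
    (w : ℝ → F) (G : ℝ × ℝ × ℝ × F → F) (M : ℝ → ℝ) (K : Set F) : Prop where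
  sG : SF G
  rpos : 0 < r
  comp : IsCompact K
  mem : ∀ x ∈ Ioo 0 r, w x ∈ K
  sw : ∀ x ∈ Ioo 0 r, ContDiffAt ℝ ((⊤ : ℕ∞) : WithTop ℕ∞) w x
  fc : ContinuousOn f (Ioo 0 r)
  f1 : ∀ x ∈ Ioo 0 r, 0 < f x ∧ f x < x
  eq : ∀ x ∈ Ioo 0 r, w (f x) = w x - tt ε x • G (WW ε w x)
  thf : ∀ x ∈ Ioo 0 r, ∀ (F' : Type) [NormedAddCommGroup F'] [NormedSpace ℝ F'] (φ : ℝ → F'),
    DifferentiableAt ℝ φ (f x) →
      th φ (f x) = (1 - tt ε x * M x) • th (fun y => φ (f y)) x
  con : ∀ v ∈ K, ‖fderiv ℝ (fun z => G (0, 0, 0, z)) v - γ • ContinuousLinearMap.id ℝ F‖ ≤ c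

section
variable {F : Type} [NormedAddCommGroup F] [NormedSpace ℝ F]
  {ε γ c r : ℝ} {f : ℝ → ℝ} {w : ℝ → F} {G : ℝ × ℝ × ℝ × F → F} {M : ℝ → ℝ} {K : Set F}

/-- near `0` the function `G` is smooth at the points of the curve -/
lemma BS.G_smooth (h : BS ε γ c r f w G M K) : ∀ᶠ x in 𝓝[>] (0 : ℝ),
    ContDiffAt ℝ ((⊤ : ℕ∞) : WithTop ℕ∞) G (WW ε w x) := by
  have h1 := near h.comp ε (Q := fun w => ContDiffAt ℝ ((⊤ : ℕ∞) : WithTop ℕ∞) G w)
    (fun u _ => h.sG 0 u)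
  filter_upwards [h1, Ioo_mem_nhdsGT h.rpos] with x hx hxr
  exact hx (w x) (h.mem x hxr)

/-- the equation for `th w` -/
lemma BS.th_eq (h : BS ε γ c r f w G M K) {x : ℝ} (hx : x ∈ Ioo 0 r)
    (hG : ContDiffAt ℝ ((⊤ : ℕ∞) : WithTop ℕ∞) G (WW ε w x)) :
    th w (f x) = (1 - tt ε x * M x) • (th w x - tt ε x • (kt x • G (WW ε w x) +
      pro G (WW ε (fun y => (w y, th w y)) x))) := by
  have hfx := h.f1 x hx
  have hfr : f x ∈ Ioo 0 r := ⟨hfx.1, hfx.2.trans hx.2⟩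
  rw [h.thf x hx F w (diffAt (h.sw _ hfr))]
  congr 1
  have hw := diffAt (h.sw x hx)
  have hWW : DifferentiableAt ℝ (WW ε w) x := by
    have h1 : DifferentiableAt ℝ (tt ε) x :=
      ((chi_smooth.contDiffAt.differentiableAt (by simp)).const_mul ε)
    have h2 : DifferentiableAt ℝ (ts ε) x := by
      have h3 : DifferentiableAt ℝ (fun x => chi x / x ^ 2) x :=
        ((chi_div_smooth 2).contDiffAt.differentiableAt (by simp))
      exact h3.const_mul ε
    exact h1.prodMk (h2.prodMk (differentiableAt_id.prodMk hw))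
  have hGd : DifferentiableAt ℝ (fun y => G (WW ε w y)) x :=
    (hG.differentiableAt (by simp)).comp x hWW
  have e1 : th (fun y => w (f y)) x = th (fun y => w y - tt ε y • G (WW ε w y)) x := by
    refine th_congr ?_
    filter_upwards [isOpen_Ioo.mem_nhds hx] with y hy using h.eq y hy
  rw [e1]
  have htt : DifferentiableAt ℝ (tt ε) x :=
    ((chi_smooth.contDiffAt.differentiableAt (by simp)).const_mul ε)
  have e2 : th (fun y => w y - tt ε y • G (WW ε w y)) x =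
      th w x - (tt ε x • th (fun y => G (WW ε w y)) x + th (tt ε) x • G (WW ε w x)) := by
    have hd : HasDerivAt (fun y => w y - tt ε y • G (WW ε w y))
        (deriv w x - (tt ε x • deriv (fun y => G (WW ε w y)) x +
          deriv (tt ε) x • G (WW ε w x))) x :=
      (hw.hasDerivAt).sub ((htt.hasDerivAt).smul hGd.hasDerivAt)
    unfold th
    rw [hd.deriv]
    simp only [smul_sub, smul_add, smul_smul, smul_eq_mul]
    rw [mul_comm (x ^ 2) (tt ε x)]
  rw [e2, th_tt, th_pro hx.1 hw (hG.differentiableAt (by simp))]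
  rw [smul_add, smul_smul, mul_comm (kt x) (tt ε x), add_comm (tt ε x • pro G _)]

/-- `th w` is bounded near `0`. -/
theorem BS.bound1 (hε : 0 < ε) (hγ : c < γ) (h : BS ε γ c r f w G M K)
    (hM : Tendsto M (𝓝[>] 0) (𝓝 0)) : ∃ r1, 0 < r1 ∧ r1 < r ∧ ∃ B, ∀ x ∈ Ioo 0 r1, ‖th w x‖ ≤ B := by
  set δ := (γ - c) / 4 with hδ
  have hδ0 : 0 < δ := by rw [hδ]; linarith
  -- derivative in the last variable
  have hq1 : ∀ u ∈ K, ∀ᶠ p in 𝓝 ((0, 0, 0, u) : ℝ × ℝ × ℝ × F),
      ∀ y : F, ‖fderiv ℝ G p (0, 0, 0, y) - γ • y‖ ≤ (c + δ) * ‖y‖ := by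
    intro u hu
    have hs := (h.sG 0 u).self_of_nhds
    have hcont : ContinuousAt (fderiv ℝ G) (0, 0, 0, u) :=
      (hs.fderiv_right (m := ((⊤ : ℕ∞) : WithTop ℕ∞)) (by simp)).continuousAt
    have hbase : ∀ y : F, fderiv ℝ G (0, 0, 0, u) (0, 0, 0, y) =
        fderiv ℝ (fun z => G (0, 0, 0, z)) u y := by
      intro y
      have hd : HasFDerivAt G (fderiv ℝ G (0, 0, 0, u)) (0, 0, 0, u) :=
        (hs.differentiableAt (by simp)).hasFDerivAt
      have hin : HasFDerivAt (fun z : F => ((0, 0, 0, z) : ℝ × ℝ × ℝ × F))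
          ((ContinuousLinearMap.inr ℝ ℝ (ℝ × ℝ × F)).comp
            ((ContinuousLinearMap.inr ℝ ℝ (ℝ × F)).comp (ContinuousLinearMap.inr ℝ ℝ F))) u := by
        exact (((ContinuousLinearMap.inr ℝ ℝ (ℝ × ℝ × F)).comp
            ((ContinuousLinearMap.inr ℝ ℝ (ℝ × F)).comp
              (ContinuousLinearMap.inr ℝ ℝ F)))).hasFDerivAt
      have h3 := (hd.comp u hin).fderiv
      have h4 : fderiv ℝ (fun z => G (0, 0, 0, z)) u = _ := h3
      rw [h4]
      rfl
    have hnear : ∀ᶠ p in 𝓝 ((0, 0, 0, u) : ℝ × ℝ × ℝ × F),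
        ‖fderiv ℝ G p - fderiv ℝ G (0, 0, 0, u)‖ < δ := by
      have := (Metric.continuousAt_iff'.1 hcont) δ hδ0
      filter_upwards [this] with p hp
      rwa [dist_eq_norm] at hp
    filter_upwards [hnear] with p hp y
    have hy : ‖((0, 0, 0, y) : ℝ × ℝ × ℝ × F)‖ = ‖y‖ := by
      simp [Prod.norm_def]
    have h5 : ‖(fderiv ℝ G p - fderiv ℝ G (0, 0, 0, u)) (0, 0, 0, y)‖ ≤ δ * ‖y‖ := by
      refine (ContinuousLinearMap.le_opNorm _ _).trans ?_
      rw [hy]
      exact mul_le_mul_of_nonneg_right hp.le (norm_nonneg _)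
    have h6 : ‖(fderiv ℝ (fun z => G (0, 0, 0, z)) u - γ • ContinuousLinearMap.id ℝ F) y‖
        ≤ c * ‖y‖ := by
      refine (ContinuousLinearMap.le_opNorm _ _).trans ?_
      exact mul_le_mul_of_nonneg_right (h.con u hu) (norm_nonneg _)
    have h7 : fderiv ℝ G p (0, 0, 0, y) - γ • y =
        (fderiv ℝ (fun z => G (0, 0, 0, z)) u - γ • ContinuousLinearMap.id ℝ F) y +
        (fderiv ℝ G p - fderiv ℝ G (0, 0, 0, u)) (0, 0, 0, y) := by
      simp only [sub_apply, smul_apply,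
        ContinuousLinearMap.id_apply, hbase]
      abel
    rw [h7]
    refine (norm_add_le _ _).trans ?_
    linarith
  -- the remaining terms
  obtain ⟨C0, hC0⟩ : ∃ C0, ∀ u ∈ K, ‖kt 0 • G (0, 0, 0, u)‖ ≤ C0 := by
    refine h.comp.exists_bound_of_continuousOn (f := fun u => kt 0 • G (0, 0, 0, u)) ?_
    intro u hu
    have hs := (h.sG 0 u).self_of_nhds
    have h1 : ContinuousAt (fun z : F => G (0, 0, 0, z)) u := by
      have hc : ContinuousAt (fun z : F => ((0, 0, 0, z) : ℝ × ℝ × ℝ × F)) u := by fun_prop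
      exact ContinuousAt.comp (g := G) (x := u) hs.continuousAt hc
    exact (h1.const_smul (kt 0)).continuousWithinAt
  have hq2 : ∀ u ∈ K, ∀ᶠ p in 𝓝 ((0, 0, 0, u) : ℝ × ℝ × ℝ × F),
      ‖kt p.2.2.1 • G p + fderiv ℝ G p (kt p.2.2.1 * p.1, (kt p.2.2.1 - 2 * p.2.2.1) * p.2.1,
        p.2.2.1 ^ 2, 0)‖ ≤ C0 + 1 := by
    intro u hu
    have hs := (h.sG 0 u).self_of_nhds
    have hcont : ContinuousAt (fderiv ℝ G) (0, 0, 0, u) :=
      (hs.fderiv_right (m := ((⊤ : ℕ∞) : WithTop ℕ∞)) (by simp)).continuousAt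
    have hkt : Continuous (fun p : ℝ × ℝ × ℝ × F => kt p.2.2.1) :=
      kt_smooth.continuous.comp (by fun_prop)
    have h1 : ContinuousAt (fun p : ℝ × ℝ × ℝ × F => kt p.2.2.1 • G p +
        fderiv ℝ G p (kt p.2.2.1 * p.1, (kt p.2.2.1 - 2 * p.2.2.1) * p.2.1,
        p.2.2.1 ^ 2, 0)) (0, 0, 0, u) := by
      refine (hkt.continuousAt.smul hs.continuousAt).add (hcont.clm_apply ?_)
      refine Continuous.continuousAt ?_
      refine Continuous.prodMk (hkt.mul (by fun_prop)) (Continuous.prodMk ?_ (by fun_prop))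
      exact (hkt.sub (by fun_prop)).mul (by fun_prop)
    have h2 := h1.norm
    have h3 : ‖kt (0 : ℝ) • G (0, 0, 0, u) + fderiv ℝ G (0, 0, 0, u)
        (kt 0 * 0, (kt 0 - 2 * 0) * 0, 0 ^ 2, 0)‖ < C0 + 1 := by
      have : ((kt 0 * 0, (kt 0 - 2 * 0) * 0, 0 ^ 2, 0) : ℝ × ℝ × ℝ × F) = 0 := by
        simp
      rw [this, map_zero, add_zero]
      linarith [hC0 u hu]
    exact (h2.eventually_lt_const h3).mono fun p hp => hp.le
  have ev1 := near h.comp ε hq1
  have ev2 := near h.comp ε hq2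
  have ev3 : ∀ᶠ x in 𝓝[>] (0 : ℝ), |M x| < δ := by
    have h1 := hM.abs
    rw [abs_zero] at h1
    exact h1.eventually_lt_const hδ0
  have ev4 : ∀ᶠ x in 𝓝[>] (0 : ℝ), tt ε x * (|γ| + 1) < 1 := by
    have h1 := (tendsto_tt ε).mul_const (|γ| + 1)
    rw [zero_mul] at h1
    exact h1.eventually_lt_const one_pos
  have ev5 : ∀ᶠ x in 𝓝[>] (0 : ℝ), tt ε x * δ < 1 := by
    have h1 := (tendsto_tt ε).mul_const δ
    rw [zero_mul] at h1
    exact h1.eventually_lt_const one_pos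
  have evall := h.G_smooth.and (ev1.and (ev2.and (ev3.and (ev4.and ev5))))
  obtain ⟨r0, hr0, hr0'⟩ := (mem_nhdsGT_iff_exists_Ioo_subset).1 evall
  have hr0 : 0 < r0 := hr0
  -- the closed interval
  set r1 := min r0 r / 2 with hr1
  have hm : 0 < min r0 r := lt_min hr0 h.rpos
  have hr1pos : 0 < r1 := by rw [hr1]; linarith
  have hr1r0 : r1 < r0 := by rw [hr1]; linarith [min_le_left r0 r]
  have hr1r : r1 < r := by rw [hr1]; linarith [min_le_right r0 r]
  have hsub : Ioc 0 r1 ⊆ Ioo 0 r := fun x hx => ⟨hx.1, hx.2.trans_lt hr1r⟩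
  have hC0' : 0 ≤ C0 + 1 ∨ K = ∅ := by
    rcases K.eq_empty_or_nonempty with hK | ⟨u, hu⟩
    · exact Or.inr hK
    · exact Or.inl (by linarith [hC0 u hu, norm_nonneg (kt 0 • G (0, 0, 0, u))])
  have hC1 : 0 ≤ C0 + 1 := by
    rcases hC0' with h0 | h0
    · exact h0
    · exfalso
      have := h.mem r1 ⟨hr1pos, hr1r⟩
      rw [h0] at this
      exact this
  refine ⟨r1, hr1pos, hr1r, ?_⟩
  obtain ⟨B, hB⟩ := gronwall (f := f) (y := fun x => ‖th w x‖) (T := tt ε) (r := r1) (c := δ)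
    (C := 2 * (C0 + 1)) hr1pos (h.fc.mono hsub) (fun x hx => h.f1 x (hsub hx))
    (fun x hx => (smooth_th (h.sw x (hsub hx))).continuousAt.norm.continuousWithinAt) hδ0
    (fun x hx => by
      have hx0 := hr0' ⟨hx.1, hx.2.trans_lt hr1r0⟩
      have htt : 0 < tt ε x := mul_pos hε (chi_pos hx.1)
      refine ⟨htt.le, ?_⟩
      have := hx0.2.2.2.2.2
      linarith)
    (fun x hx => by
      have hx0 := hr0' ⟨hx.1, hx.2.trans_lt hr1r0⟩
      obtain ⟨g1, g2, g3, g4, g5, g6⟩ := hx0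
      have htt : 0 < tt ε x := mul_pos hε (chi_pos hx.1)
      have hxr := hsub hx
      have hK := h.mem x hxr
      set t := tt ε x with ht
      set y := th w x with hy
      have e1 := h.th_eq hxr g1
      have e2 : pro G (WW ε (fun y => (w y, th w y)) x) =
          fderiv ℝ G (WW ε w x) (0, 0, 0, y) + fderiv ℝ G (WW ε w x)
            (kt x * tt ε x, (kt x - 2 * x) * ts ε x, x ^ 2, 0) := by
        rw [← map_add]
        simp only [pro, WW]
        congr 1
        simp [Prod.mk_add_mk, hy]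
      have g2' := g2 (w x) hK y
      have g3' := g3 (w x) hK
      simp only at g3'
      set Hh := kt x • G (WW ε w x) + fderiv ℝ G (WW ε w x)
            (kt x * tt ε x, (kt x - 2 * x) * ts ε x, x ^ 2, 0) with hHh
      have g3'' : ‖Hh‖ ≤ C0 + 1 := g3'
      set Ay := fderiv ℝ G (WW ε w x) (0, 0, 0, y) with hAy
      have g2'' : ‖Ay - γ • y‖ ≤ (c + δ) * ‖y‖ := g2'
      have e3 : y - t • (kt x • G (WW ε w x) + pro G (WW ε (fun y => (w y, th w y)) x)) =
          (1 - t * γ) • y - t • (Ay - γ • y) - t • Hh := by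
        rw [e2, hHh]
        module
      show ‖th w (f x)‖ ≤ _
      rw [e1, e3, norm_smul]
      have hγ1 : t * γ ≤ 1 := by
        have h1 : γ ≤ |γ| + 1 := by linarith [le_abs_self γ]
        nlinarith
      have k1 : ‖(1 - t * γ) • y - t • (Ay - γ • y) - t • Hh‖ ≤
          (1 - t * γ) * ‖y‖ + t * ((c + δ) * ‖y‖) + t * (C0 + 1) := by
        refine (norm_sub_le _ _).trans (add_le_add ((norm_sub_le _ _).trans (add_le_add ?_ ?_)) ?_)
        · rw [norm_smul, Real.norm_of_nonneg (by linarith)]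
        · rw [norm_smul, Real.norm_of_nonneg htt.le]
          exact mul_le_mul_of_nonneg_left g2'' htt.le
        · rw [norm_smul, Real.norm_of_nonneg htt.le]
          exact mul_le_mul_of_nonneg_left g3'' htt.le
      have k2 : ‖(1 : ℝ) - t * M x‖ ≤ 1 + t * δ := by
        rw [Real.norm_eq_abs]
        refine (abs_sub _ _).trans ?_
        rw [abs_one, abs_mul, abs_of_pos htt]
        have := mul_le_mul_of_nonneg_left g4.le htt.le
        linarith
      have hyn := norm_nonneg y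
      have k3 : (1 - t * γ) * ‖y‖ + t * ((c + δ) * ‖y‖) + t * (C0 + 1) =
          (1 - 3 * (t * δ)) * ‖y‖ + t * (C0 + 1) := by
        rw [hδ]; ring
      have htδ : 0 < t * δ := mul_pos htt hδ0
      calc ‖(1 : ℝ) - t * M x‖ * ‖(1 - t * γ) • y - t • (Ay - γ • y) - t • Hh‖
          ≤ (1 + t * δ) * ((1 - 3 * (t * δ)) * ‖y‖ + t * (C0 + 1)) := by
            refine mul_le_mul k2 (k1.trans k3.le) (norm_nonneg _) (by linarith)
        _ ≤ (1 - δ * t) * ‖y‖ + 2 * (C0 + 1) * t := by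
            have h1 : 0 ≤ t * (C0 + 1) := mul_nonneg htt.le hC1
            nlinarith [mul_nonneg htδ.le hyn, mul_nonneg (mul_nonneg htδ.le htδ.le) hyn])
  exact ⟨B, fun x hx => hB x ⟨hx.1, hx.2.le⟩⟩

end

end Pool.Agent.Helper75.Bil
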