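import Pool.Agent.Helper58.Bil.SysDefs
import Pool.Agent.Helper28.Bil.Pro

/-!
Elementary facts about `th`, `SF`, for BIL-M7b (MP_190632_an).
-/

set_option autoImplicit false

namespace Pool.Agent.Helper75.Bil

open Real Set Filter Topology Pool.Agent.Helper58.Bil

section th
variable {F F' : Type} [NormedAddCommGroup F] [NormedSpace ℝ F]
  [NormedAddCommGroup F'] [NormedSpace ℝ F']

lemma th_congr {φ ψ : ℝ → F} {x : ℝ} (h : φ =ᶠ[𝓝 x] ψ) : th φ x = th ψ x := by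
  unfold th; rw [h.deriv_eq]

lemma th_iter_congr {U : Set ℝ} (hU : IsOpen U) (k : ℕ) : ∀ {φ ψ : ℝ → F},
    (∀ x ∈ U, φ x = ψ x) → ∀ x ∈ U, (th^[k] φ) x = (th^[k] ψ) x := by
  induction k with
  | zero => intro φ ψ h x hx; exact h x hx
  | succ k ih =>
    intro φ ψ h x hx
    rw [Function.iterate_succ_apply, Function.iterate_succ_apply]
    refine ih (fun y hy => th_congr ?_) x hx
    filter_upwards [hU.mem_nhds hy] with z hz using h z hz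

lemma smooth_th {φ : ℝ → F} {x : ℝ} (h : ContDiffAt ℝ ((⊤ : ℕ∞) : WithTop ℕ∞) φ x) :
    ContDiffAt ℝ ((⊤ : ℕ∞) : WithTop ℕ∞) (th φ) x := by
  have h1 : ContDiffAt ℝ ((⊤ : ℕ∞) : WithTop ℕ∞) (fderiv ℝ φ) x :=
    h.fderiv_right (by simp)
  have h2 : ContDiffAt ℝ ((⊤ : ℕ∞) : WithTop ℕ∞) (fun y => fderiv ℝ φ y 1) x :=
    h1.clm_apply contDiffAt_const
  have h3 : (fun y => fderiv ℝ φ y 1) = deriv φ := by
    funext y; rw [fderiv_apply_one_eq_deriv]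
  rw [h3] at h2
  exact (contDiffAt_id.pow 2).smul h2

lemma smooth_th_iter {U : Set ℝ} (k : ℕ) : ∀ {φ : ℝ → F},
    (∀ x ∈ U, ContDiffAt ℝ ((⊤ : ℕ∞) : WithTop ℕ∞) φ x) →
    ∀ x ∈ U, ContDiffAt ℝ ((⊤ : ℕ∞) : WithTop ℕ∞) (th^[k] φ) x := by
  induction k with
  | zero => intro φ h x hx; exact h x hx
  | succ k ih =>
    intro φ h x hx
    rw [Function.iterate_succ_apply]
    exact ih (fun y hy => smooth_th (h y hy)) x hx

lemma diffAt {φ : ℝ → F} {x : ℝ} (h : ContDiffAt ℝ ((⊤ : ℕ∞) : WithTop ℕ∞) φ x) :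
    DifferentiableAt ℝ φ x := h.differentiableAt (by simp)

lemma th_clm (L : F →L[ℝ] F') {φ : ℝ → F} {x : ℝ} (h : DifferentiableAt ℝ φ x) :
    th (fun y => L (φ y)) x = L (th φ x) := by
  unfold th
  have h1 : deriv (fun y => L (φ y)) x = L (deriv φ x) :=
    (L.hasFDerivAt.comp_hasDerivAt x h.hasDerivAt).deriv
  rw [h1, map_smul]

lemma th_iter_clm (L : F →L[ℝ] F') {U : Set ℝ} (hU : IsOpen U) (k : ℕ) : ∀ {φ : ℝ → F},
    (∀ x ∈ U, ContDiffAt ℝ ((⊤ : ℕ∞) : WithTop ℕ∞) φ x) →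
    ∀ x ∈ U, (th^[k] (fun y => L (φ y))) x = L ((th^[k] φ) x) := by
  induction k with
  | zero => intro φ h x hx; rfl
  | succ k ih =>
    intro φ h x hx
    rw [Function.iterate_succ_apply, Function.iterate_succ_apply]
    rw [← ih (fun y hy => smooth_th (h y hy)) x hx]
    exact th_iter_congr hU k (fun y hy => th_clm L (diffAt (h y hy))) x hx

end th

/-! ### the weights tend to `0` -/

lemma tendsto_tt (ε : ℝ) : Tendsto (tt ε) (𝓝[>] 0) (𝓝 0) := by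
  have h1 : Tendsto chi (𝓝 0) (𝓝 (chi 0)) := chi_smooth.continuous.tendsto 0
  rw [chi_nonpos le_rfl] at h1
  have h2 : Tendsto (fun x => ε * chi x) (𝓝 0) (𝓝 (ε * 0)) := h1.const_mul ε
  rw [mul_zero] at h2
  exact h2.mono_left nhdsWithin_le_nhds

lemma tendsto_ts (ε : ℝ) : Tendsto (ts ε) (𝓝[>] 0) (𝓝 0) := by
  have h1 : Tendsto (fun x => chi x / x ^ 2) (𝓝 0) (𝓝 (chi 0 / 0 ^ 2)) :=
    (chi_div_smooth 2).continuous.tendsto 0
  have h0 : chi 0 / 0 ^ 2 = 0 := by norm_num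
  rw [h0] at h1
  have h2 : Tendsto (fun x => ε * (chi x / x ^ 2)) (𝓝 0) (𝓝 (ε * 0)) := h1.const_mul ε
  rw [mul_zero] at h2
  exact h2.mono_left nhdsWithin_le_nhds

lemma tendsto_wt (ε : ℝ) : Tendsto (fun x => (tt ε x, ts ε x, x)) (𝓝[>] 0)
    (𝓝 ((0, 0, 0) : ℝ × ℝ × ℝ)) := by
  refine (tendsto_tt ε).prodMk_nhds ((tendsto_ts ε).prodMk_nhds ?_)
  exact tendsto_id.mono_left nhdsWithin_le_nhds

section near
variable {E : Type} [NormedAddCommGroup E]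

/-- a property which holds near the base points over the compact set `K` holds along `WW` for
small `x > 0`. -/
lemma near {K : Set E} (hK : IsCompact K) (ε : ℝ) {Q : ℝ × ℝ × ℝ × E → Prop}
    (h : ∀ u ∈ K, ∀ᶠ w in 𝓝 ((0, 0, 0, u) : ℝ × ℝ × ℝ × E), Q w) :
    ∀ᶠ x in 𝓝[>] (0 : ℝ), ∀ u ∈ K, Q (tt ε x, ts ε x, x, u) := by
  have h1 : ∀ᶠ p in 𝓝 ((0, 0, 0) : ℝ × ℝ × ℝ), ∀ u ∈ K, Q (p.1, p.2.1, p.2.2, u) := by
    refine hK.eventually_forall_of_forall_eventually fun u hu => ?_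
    have hc : Continuous (fun z : (ℝ × ℝ × ℝ) × E => (z.1.1, z.1.2.1, z.1.2.2, z.2)) := by
      fun_prop
    have ht : Tendsto (fun z : (ℝ × ℝ × ℝ) × E => (z.1.1, z.1.2.1, z.1.2.2, z.2))
        (𝓝 ((0, 0, 0), u)) (𝓝 ((0, 0, 0, u) : ℝ × ℝ × ℝ × E)) := hc.tendsto ((0, 0, 0), u)
    exact ht.eventually (h u hu)
  exact (tendsto_wt ε).eventually h1

end near

/-! ### closure properties of `SF` -/

section SF
variable {E E' F F' : Type} [NormedAddCommGroup E] [NormedSpace ℝ E]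
  [NormedAddCommGroup E'] [NormedSpace ℝ E'] [NormedAddCommGroup F] [NormedSpace ℝ F]
  [NormedAddCommGroup F'] [NormedSpace ℝ F']

lemma SF_of_contDiff {Φ : ℝ × ℝ × ℝ × E → F} (h : ContDiff ℝ ((⊤ : ℕ∞) : WithTop ℕ∞) Φ) : SF Φ :=
  fun _ _ => Eventually.of_forall fun _ => h.contDiffAt

lemma SF_comp_clm {Φ : ℝ × ℝ × ℝ × E → F} (h : SF Φ) (L : E' →L[ℝ] E) :
    SF (fun w : ℝ × ℝ × ℝ × E' => Φ (w.1, w.2.1, w.2.2.1, L w.2.2.2)) := by
  intro x u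
  have hs : ContDiff ℝ ((⊤ : ℕ∞) : WithTop ℕ∞)
      (fun w : ℝ × ℝ × ℝ × E' => (w.1, w.2.1, w.2.2.1, L w.2.2.2)) := by fun_prop
  have ht : Tendsto (fun w : ℝ × ℝ × ℝ × E' => (w.1, w.2.1, w.2.2.1, L w.2.2.2))
      (𝓝 (0, 0, x, u)) (𝓝 ((0, 0, x, L u) : ℝ × ℝ × ℝ × E)) :=
    hs.continuous.tendsto (0, 0, x, u)
  filter_upwards [ht.eventually (h x (L u))] with w hw
  exact hw.comp w hs.contDiffAt

lemma SF_smul {Φ : ℝ × ℝ × ℝ × E → ℝ} {Ψ : ℝ × ℝ × ℝ × E → F} (h1 : SF Φ) (h2 : SF Ψ) :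
    SF (fun w => Φ w • Ψ w) := by
  intro x u
  filter_upwards [h1 x u, h2 x u] with w a b using a.smul b

lemma SF_add {Φ Ψ : ℝ × ℝ × ℝ × E → F} (h1 : SF Φ) (h2 : SF Ψ) :
    SF (fun w => Φ w + Ψ w) := by
  intro x u
  filter_upwards [h1 x u, h2 x u] with w a b using a.add b

lemma SF_sub {Φ Ψ : ℝ × ℝ × ℝ × E → F} (h1 : SF Φ) (h2 : SF Ψ) :
    SF (fun w => Φ w - Ψ w) := by
  intro x u
  filter_upwards [h1 x u, h2 x u] with w a b using a.sub b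

lemma SF_prod {Φ : ℝ × ℝ × ℝ × E → F} {Ψ : ℝ × ℝ × ℝ × E → F'} (h1 : SF Φ) (h2 : SF Ψ) :
    SF (fun w => (Φ w, Ψ w)) := by
  intro x u
  filter_upwards [h1 x u, h2 x u] with w a b using a.prodMk b

lemma SF_kt : SF (fun w : ℝ × ℝ × ℝ × E => kt w.2.2.1) := by
  refine SF_of_contDiff ?_
  exact kt_smooth.comp (by fun_prop)

lemma SF_const (v : F) : SF (fun _ : ℝ × ℝ × ℝ × E => v) := SF_of_contDiff contDiff_const

end SF

end Pool.Agent.Helper75.Bil
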