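import Pool.Agent.Helper75.Bil.BSys

/-!
Prolongation of the system and bounds for all `th^[k] w` (BIL-M7b, MP_190632_an).
-/

set_option autoImplicit false

namespace Pool.Agent.Helper75.Bil

open Real Set Filter Topology Pool.Agent.Helper58.Bil

section
variable {F : Type} [NormedAddCommGroup F] [NormedSpace ℝ F]

lemma base_fderiv {G : ℝ × ℝ × ℝ × F → F} (sG : SF G) (u y : F) :
    fderiv ℝ G (0, 0, 0, u) (0, 0, 0, y) = fderiv ℝ (fun z => G (0, 0, 0, z)) u y := by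
  have hs := (sG 0 u).self_of_nhds
  have hd : HasFDerivAt G (fderiv ℝ G (0, 0, 0, u)) (0, 0, 0, u) :=
    (hs.differentiableAt (by simp)).hasFDerivAt
  have hin : HasFDerivAt (fun z : F => ((0, 0, 0, z) : ℝ × ℝ × ℝ × F))
      ((ContinuousLinearMap.inr ℝ ℝ (ℝ × ℝ × F)).comp
        ((ContinuousLinearMap.inr ℝ ℝ (ℝ × F)).comp (ContinuousLinearMap.inr ℝ ℝ F))) u :=
    (((ContinuousLinearMap.inr ℝ ℝ (ℝ × ℝ × F)).comp
        ((ContinuousLinearMap.inr ℝ ℝ (ℝ × F)).comp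
          (ContinuousLinearMap.inr ℝ ℝ F)))).hasFDerivAt
  have h3 := (hd.comp u hin).fderiv
  have h4 : fderiv ℝ (fun z => G (0, 0, 0, z)) u = _ := h3
  rw [h4]
  rfl

lemma g0_smooth {G : ℝ × ℝ × ℝ × F → F} (sG : SF G) :
    ContDiff ℝ ((⊤ : ℕ∞) : WithTop ℕ∞) (fun z : F => G (0, 0, 0, z)) := by
  rw [contDiff_iff_contDiffAt]
  intro u
  have hs := (sG 0 u).self_of_nhds
  have hin : ContDiffAt ℝ ((⊤ : ℕ∞) : WithTop ℕ∞)
      (fun z : F => ((0, 0, 0, z) : ℝ × ℝ × ℝ × F)) u := by fun_prop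
  exact ContDiffAt.comp (g := G) u hs hin

/-- the prolonged right-hand side -/
noncomputable def Gp (q : ℝ) (G : ℝ × ℝ × ℝ × F → F) (mt : ℝ × ℝ × ℝ × (F × F) → ℝ) :
    ℝ × ℝ × ℝ × (F × F) → F × F := fun p =>
  (G (p.1, p.2.1, p.2.2.1, p.2.2.2.1),
    mt (p.1, p.2.1, p.2.2.1, (p.2.2.2.1, q⁻¹ • p.2.2.2.2)) • p.2.2.2.2 +
    (1 - p.1 * mt (p.1, p.2.1, p.2.2.1, (p.2.2.2.1, q⁻¹ • p.2.2.2.2))) •
      (q • (kt p.2.2.1 • G (p.1, p.2.1, p.2.2.1, p.2.2.2.1) +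
        pro G (p.1, p.2.1, p.2.2.1, (p.2.2.2.1, q⁻¹ • p.2.2.2.2)))))

/-- `(u, v) ↦ (u, q⁻¹ v)` -/
noncomputable def Lq (F : Type) [NormedAddCommGroup F] [NormedSpace ℝ F] (q : ℝ) :
    (F × F) →L[ℝ] (F × F) :=
  (ContinuousLinearMap.fst ℝ F F).prod (q⁻¹ • ContinuousLinearMap.snd ℝ F F)

lemma SF_Gp {q : ℝ} {G : ℝ × ℝ × ℝ × F → F} {mt : ℝ × ℝ × ℝ × (F × F) → ℝ} (sG : SF G)
    (smt : SF mt) : SF (Gp q G mt) := by
  have hA := SF_comp_clm sG (ContinuousLinearMap.fst ℝ F F)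
  have hm := SF_comp_clm smt (Lq F q)
  have hp := SF_comp_clm (SF.pro sG) (Lq F q)
  have hv : SF (fun p : ℝ × ℝ × ℝ × (F × F) => p.2.2.2.2) := SF_of_contDiff (by fun_prop)
  have h1 : SF (fun p : ℝ × ℝ × ℝ × (F × F) => p.1) := SF_of_contDiff (by fun_prop)
  exact SF_prod hA (SF_add (SF_smul hm hv) (SF_smul (SF_sub (SF_const (1 : ℝ)) (SF_smul h1 hm))
    (SF_smul (SF_const q) (SF_add (SF_smul SF_kt hA) hp))))

lemma Gp_base {q : ℝ} (hq : q ≠ 0) {G : ℝ × ℝ × ℝ × F → F} {mt : ℝ × ℝ × ℝ × (F × F) → ℝ}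
    (sG : SF G) (mt0 : ∀ x z, mt (0, 0, x, z) = 0) (z : F × F) :
    Gp q G mt (0, 0, 0, z) = (G (0, 0, 0, z.1), (q * kt 0) • G (0, 0, 0, z.1) +
      fderiv ℝ (fun y => G (0, 0, 0, y)) z.1 z.2) := by
  have h1 : pro G (0, 0, 0, (z.1, q⁻¹ • z.2)) =
      fderiv ℝ (fun y => G (0, 0, 0, y)) z.1 (q⁻¹ • z.2) := by
    rw [← base_fderiv sG]
    simp [pro]
  simp only [Gp, mt0, h1, zero_smul, zero_add, mul_zero, sub_zero, one_smul, smul_add, map_smul,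
    smul_smul, mul_inv_cancel₀ hq, one_mul]

lemma Gp_con [FiniteDimensional ℝ F] {c γ B : ℝ} {K : Set F} {G : ℝ × ℝ × ℝ × F → F}
    {mt : ℝ × ℝ × ℝ × (F × F) → ℝ} (hK : IsCompact K) (hB : 0 ≤ B) (hγ : c < γ) (hKne : K.Nonempty)
    (sG : SF G) (mt0 : ∀ x z, mt (0, 0, x, z) = 0)
    (con : ∀ v ∈ K, ‖fderiv ℝ (fun z => G (0, 0, 0, z)) v - γ • ContinuousLinearMap.id ℝ F‖ ≤ c) :
    ∃ q > 0, ∀ v ∈ K ×ˢ Metric.closedBall (0 : F) (q * B),
      ‖fderiv ℝ (fun z => Gp q G mt (0, 0, 0, z)) v - γ • ContinuousLinearMap.id ℝ (F × F)‖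
        ≤ (c + γ) / 2 := by
  set g : F → F := fun z => G (0, 0, 0, z) with hg
  have hgs : ContDiff ℝ ((⊤ : ℕ∞) : WithTop ℕ∞) g := g0_smooth sG
  have hgs1 : ContDiff ℝ ((⊤ : ℕ∞) : WithTop ℕ∞) (fderiv ℝ g) := hgs.fderiv_right (by simp)
  have hgs2 : ContDiff ℝ ((⊤ : ℕ∞) : WithTop ℕ∞) (fderiv ℝ (fderiv ℝ g)) :=
    hgs1.fderiv_right (by simp)
  obtain ⟨M1, hM1⟩ := hK.exists_bound_of_continuousOn hgs1.continuous.continuousOn
  obtain ⟨M2, hM2⟩ := hK.exists_bound_of_continuousOn hgs2.continuous.continuousOn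
  obtain ⟨v0, hv0⟩ := hKne
  have hM1' : 0 ≤ M1 := (norm_nonneg _).trans (hM1 v0 hv0)
  have hM2' : 0 ≤ M2 := (norm_nonneg _).trans (hM2 v0 hv0)
  have hc0 : 0 ≤ c := (norm_nonneg _).trans (con v0 hv0)
  set S := |kt 0| * M1 + M2 * B + 1 with hS
  have hS0 : 0 < S := by
    have h1 := mul_nonneg (abs_nonneg (kt 0)) hM1'
    have h2 := mul_nonneg hM2' hB
    linarith
  set q := (γ - c) / 2 / S with hqdef
  have hq : 0 < q := div_pos (by linarith) hS0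
  have hqS : q * S = (γ - c) / 2 := by rw [hqdef]; field_simp
  refine ⟨q, hq, fun v hv => ?_⟩
  have hv1 : v.1 ∈ K := hv.1
  have hv2 : ‖v.2‖ ≤ q * B := by
    have := hv.2
    rwa [mem_closedBall_zero_iff] at this
  have hfun : (fun z => Gp q G mt (0, 0, 0, z)) = fun z : F × F =>
      (g z.1, (q * kt 0) • g z.1 + fderiv ℝ g z.1 z.2) := by
    funext z
    exact Gp_base hq.ne' sG mt0 z
  have d1 : HasFDerivAt (fun z : F × F => g z.1)
      ((fderiv ℝ g v.1).comp (ContinuousLinearMap.fst ℝ F F)) v :=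
    HasFDerivAt.comp v ((hgs.differentiable (by simp)) v.1).hasFDerivAt hasFDerivAt_fst
  have d2 : HasFDerivAt (fun z : F × F => fderiv ℝ g z.1)
      ((fderiv ℝ (fderiv ℝ g) v.1).comp (ContinuousLinearMap.fst ℝ F F)) v :=
    HasFDerivAt.comp v ((hgs1.differentiable (by simp)) v.1).hasFDerivAt hasFDerivAt_fst
  have d3 := d2.clm_apply (hasFDerivAt_snd (𝕜 := ℝ) (E := F) (F := F) (p := v))
  have d4 := d1.prodMk ((d1.const_smul (q * kt 0)).add d3)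
  have d5 : HasFDerivAt (fun z : F × F => (g z.1, (q * kt 0) • g z.1 + fderiv ℝ g z.1 z.2))
      (((fderiv ℝ g v.1).comp (ContinuousLinearMap.fst ℝ F F)).prod
        ((q * kt 0) • (fderiv ℝ g v.1).comp (ContinuousLinearMap.fst ℝ F F) +
        ((fderiv ℝ g v.1).comp (ContinuousLinearMap.snd ℝ F F) +
          (((fderiv ℝ (fderiv ℝ g) v.1).comp (ContinuousLinearMap.fst ℝ F F)).flip v.2)))) v := d4
  rw [hfun, d5.fderiv]
  refine ContinuousLinearMap.opNorm_le_bound _ (by linarith) fun z => ?_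
  have hz1 : ‖z.1‖ ≤ ‖z‖ := norm_fst_le z
  have hz2 : ‖z.2‖ ≤ ‖z‖ := norm_snd_le z
  have hzn := norm_nonneg z
  have c1 : ‖fderiv ℝ g v.1 z.1 - γ • z.1‖ ≤ c * ‖z‖ := by
    have h1 := ContinuousLinearMap.le_opNorm
      (fderiv ℝ g v.1 - γ • ContinuousLinearMap.id ℝ F) z.1
    have h2 : (fderiv ℝ g v.1 - γ • ContinuousLinearMap.id ℝ F) z.1 =
      fderiv ℝ g v.1 z.1 - γ • z.1 := by simp
    rw [h2] at h1
    exact h1.trans (mul_le_mul (con v.1 hv1) hz1 (norm_nonneg _) hc0)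
  have c2 : ‖fderiv ℝ g v.1 z.2 - γ • z.2‖ ≤ c * ‖z‖ := by
    have h1 := ContinuousLinearMap.le_opNorm
      (fderiv ℝ g v.1 - γ • ContinuousLinearMap.id ℝ F) z.2
    have h2 : (fderiv ℝ g v.1 - γ • ContinuousLinearMap.id ℝ F) z.2 =
      fderiv ℝ g v.1 z.2 - γ • z.2 := by simp
    rw [h2] at h1
    exact h1.trans (mul_le_mul (con v.1 hv1) hz2 (norm_nonneg _) hc0)
  have c3 : ‖(q * kt 0) • fderiv ℝ g v.1 z.1‖ ≤ q * (|kt 0| * M1) * ‖z‖ := by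
    rw [norm_smul, Real.norm_eq_abs, abs_mul, abs_of_pos hq]
    have h1 : ‖fderiv ℝ g v.1 z.1‖ ≤ M1 * ‖z‖ :=
      (ContinuousLinearMap.le_opNorm _ _).trans (mul_le_mul (hM1 v.1 hv1) hz1 (norm_nonneg _) hM1')
    calc q * |kt 0| * ‖fderiv ℝ g v.1 z.1‖ ≤ q * |kt 0| * (M1 * ‖z‖) :=
          mul_le_mul_of_nonneg_left h1 (by positivity)
      _ = _ := by ring
  have c4 : ‖fderiv ℝ (fderiv ℝ g) v.1 z.1 v.2‖ ≤ q * (M2 * B) * ‖z‖ := by
    have h1 : ‖fderiv ℝ (fderiv ℝ g) v.1 z.1‖ ≤ M2 * ‖z‖ :=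
      (ContinuousLinearMap.le_opNorm _ _).trans (mul_le_mul (hM2 v.1 hv1) hz1 (norm_nonneg _) hM2')
    calc ‖fderiv ℝ (fderiv ℝ g) v.1 z.1 v.2‖ ≤ ‖fderiv ℝ (fderiv ℝ g) v.1 z.1‖ * ‖v.2‖ :=
          ContinuousLinearMap.le_opNorm _ _
      _ ≤ (M2 * ‖z‖) * (q * B) := mul_le_mul h1 hv2 (norm_nonneg _) (by positivity)
      _ = _ := by ring
  rw [Prod.norm_def, max_le_iff]
  constructor
  · have e1 : ((((fderiv ℝ g v.1).comp (ContinuousLinearMap.fst ℝ F F)).prod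
        ((q * kt 0) • (fderiv ℝ g v.1).comp (ContinuousLinearMap.fst ℝ F F) +
        ((fderiv ℝ g v.1).comp (ContinuousLinearMap.snd ℝ F F) +
          (((fderiv ℝ (fderiv ℝ g) v.1).comp (ContinuousLinearMap.fst ℝ F F)).flip v.2))) -
        γ • ContinuousLinearMap.id ℝ (F × F)) z).1 = fderiv ℝ g v.1 z.1 - γ • z.1 := by
      simp
    rw [e1]
    refine c1.trans ?_
    nlinarith
  · have e1 : ((((fderiv ℝ g v.1).comp (ContinuousLinearMap.fst ℝ F F)).prod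
        ((q * kt 0) • (fderiv ℝ g v.1).comp (ContinuousLinearMap.fst ℝ F F) +
        ((fderiv ℝ g v.1).comp (ContinuousLinearMap.snd ℝ F F) +
          (((fderiv ℝ (fderiv ℝ g) v.1).comp (ContinuousLinearMap.fst ℝ F F)).flip v.2))) -
        γ • ContinuousLinearMap.id ℝ (F × F)) z).2 = (q * kt 0) • fderiv ℝ g v.1 z.1 +
          fderiv ℝ (fderiv ℝ g) v.1 z.1 v.2 + (fderiv ℝ g v.1 z.2 - γ • z.2) := by
      simp
      abel
    rw [e1]
    refine (norm_add_le _ _).trans ((add_le_add ((norm_add_le _ _).trans (add_le_add c3 c4))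
      c2).trans ?_)
    have e2 : q * (|kt 0| * M1) * ‖z‖ + q * (M2 * B) * ‖z‖ + c * ‖z‖ =
      (q * S - q + c) * ‖z‖ := by rw [hS]; ring
    rw [e2, hqS]
    refine mul_le_mul_of_nonneg_right ?_ hzn
    linarith

variable {ε γ c r : ℝ} {f : ℝ → ℝ} {w : ℝ → F} {G : ℝ × ℝ × ℝ × F → F} {M : ℝ → ℝ} {K : Set F}

lemma BS.mono (h : BS ε γ c r f w G M K) {r' : ℝ} (h0 : 0 < r') (h1 : r' ≤ r) :
    BS ε γ c r' f w G M K where
  sG := h.sG
  rpos := h0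
  comp := h.comp
  mem := fun x hx => h.mem x ⟨hx.1, hx.2.trans_le h1⟩
  sw := fun x hx => h.sw x ⟨hx.1, hx.2.trans_le h1⟩
  fc := h.fc.mono (Ioo_subset_Ioo le_rfl h1)
  f1 := fun x hx => h.f1 x ⟨hx.1, hx.2.trans_le h1⟩
  eq := fun x hx => h.eq x ⟨hx.1, hx.2.trans_le h1⟩
  thf := fun x hx => h.thf x ⟨hx.1, hx.2.trans_le h1⟩
  con := h.con

/-- prolongation -/
theorem BS.prol [FiniteDimensional ℝ F] (hγ : c < γ) (h : BS ε γ c r f w G M K)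
    {mt : ℝ × ℝ × ℝ × (F × F) → ℝ} (smt : SF mt) (mt0 : ∀ x z, mt (0, 0, x, z) = 0)
    (hM : ∀ x ∈ Ioo 0 r, M x = mt (WW ε (fun y => (w y, th w y)) x)) {B : ℝ}
    (hB : ∀ x ∈ Ioo 0 r, ‖th w x‖ ≤ B) :
    ∃ q > 0, ∃ r' ≤ r, ∃ m' : ℝ × ℝ × ℝ × (F × F) → ℝ, SF m' ∧ (∀ x z, m' (0, 0, x, z) = 0) ∧
      (∀ x ∈ Ioo 0 r', M x = m' (WW ε (fun y => (w y, q • th w y)) x)) ∧
      BS ε γ ((c + γ) / 2) r' f (fun x => (w x, q • th w x)) (Gp q G mt) M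
        (K ×ˢ Metric.closedBall (0 : F) (q * B)) := by
  have hmid : r / 2 ∈ Ioo 0 r := ⟨by linarith [h.rpos], by linarith [h.rpos]⟩
  have hB0 : 0 ≤ B := (norm_nonneg _).trans (hB _ hmid)
  have hKne : K.Nonempty := ⟨_, h.mem _ hmid⟩
  obtain ⟨q, hq, hcon⟩ := Gp_con h.comp hB0 hγ hKne h.sG mt0 h.con
  obtain ⟨r0, hr0, hr0'⟩ := (mem_nhdsGT_iff_exists_Ioo_subset).1 h.G_smooth
  have hr0 : 0 < r0 := hr0
  have hm : 0 < min r0 r := lt_min hr0 h.rpos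
  have hle : min r0 r ≤ r := min_le_right _ _
  refine ⟨q, hq, min r0 r, hle, fun p => mt (p.1, p.2.1, p.2.2.1, Lq F q p.2.2.2),
    SF_comp_clm smt (Lq F q), fun x z => mt0 _ _, fun x hx => ?_, ?_⟩
  · rw [hM x ⟨hx.1, hx.2.trans_le hle⟩]
    simp [WW, Lq, smul_smul, inv_mul_cancel₀ hq.ne']
  · have hsub : ∀ x ∈ Ioo 0 (min r0 r), x ∈ Ioo 0 r := fun x hx => ⟨hx.1, hx.2.trans_le hle⟩
    refine ⟨SF_Gp h.sG smt, hm, h.comp.prod (isCompact_closedBall _ _), fun x hx => ⟨h.mem x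
      (hsub x hx), ?_⟩, fun x hx => ?_, h.fc.mono (Ioo_subset_Ioo le_rfl hle),
      fun x hx => h.f1 x (hsub x hx), fun x hx => ?_, fun x hx => h.thf x (hsub x hx), hcon⟩
    · rw [mem_closedBall_zero_iff, norm_smul, Real.norm_of_nonneg hq.le]
      exact mul_le_mul_of_nonneg_left (hB x (hsub x hx)) hq.le
    · exact (h.sw x (hsub x hx)).prodMk ((smooth_th (h.sw x (hsub x hx))).const_smul q)
    · have hG := hr0' ⟨hx.1, hx.2.trans_le (min_le_left _ _)⟩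
      have e1 := h.th_eq (hsub x hx) hG
      have e2 := hM x (hsub x hx)
      refine Prod.ext ?_ ?_
      · exact h.eq x (hsub x hx)
      · show q • th w (f x) = q • th w x - tt ε x • (Gp q G mt (WW ε _ x)).2
        have e3 : (Gp q G mt (WW ε (fun x => (w x, q • th w x)) x)).2 =
            M x • (q • th w x) + (1 - tt ε x * M x) • (q • (kt x • G (WW ε w x) +
              pro G (WW ε (fun y => (w y, th w y)) x))) := by
          rw [e2]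
          simp only [Gp, WW, smul_smul, inv_mul_cancel₀ hq.ne', one_smul]
        rw [e3, e1]
        module

end

/-- all derivatives `th^[k] w` are bounded near `0`. -/
theorem bound_iter (k : ℕ) : ∀ {F : Type} [NormedAddCommGroup F] [NormedSpace ℝ F]
    [FiniteDimensional ℝ F] {ε γ c r : ℝ} {f : ℝ → ℝ} {w : ℝ → F} {G : ℝ × ℝ × ℝ × F → F}
    {M : ℝ → ℝ} {K : Set F} (_ : 0 < ε) (_ : c < γ) (_ : BS ε γ c r f w G M K)
    (m : ℝ × ℝ × ℝ × F → ℝ) (_ : SF m) (_ : ∀ x z, m (0, 0, x, z) = 0)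
    (_ : ∀ x ∈ Ioo 0 r, M x = m (WW ε w x)),
    ∃ r' > 0, ∃ B, ∀ x ∈ Ioo 0 r', ‖(th^[k] w) x‖ ≤ B := by
  induction k with
  | zero =>
    intro F _ _ _ ε γ c r f w G M K hε hγ h m sm m0 hM
    obtain ⟨B, hB⟩ := h.comp.isBounded.exists_norm_le
    exact ⟨r, h.rpos, B, fun x hx => hB _ (h.mem x hx)⟩
  | succ k ih =>
    intro F _ _ _ ε γ c r f w G M K hε hγ h m sm m0 hM
    -- `M → 0`
    have hM0 : Tendsto M (𝓝[>] 0) (𝓝 0) := by
      rw [Metric.tendsto_nhds]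
      intro δ hδ
      have h1 := near h.comp ε (Q := fun p => |m p| < δ) (fun u hu => by
        have hc : ContinuousAt m (0, 0, 0, u) := (sm 0 u).self_of_nhds.continuousAt
        have h2 := hc.abs
        have h3 : |m (0, 0, 0, u)| < δ := by rw [m0, abs_zero]; exact hδ
        exact h2.eventually_lt_const h3)
      filter_upwards [h1, Ioo_mem_nhdsGT h.rpos] with x hx hxr
      rw [Real.dist_eq, sub_zero, hM x hxr]
      exact hx (w x) (h.mem x hxr)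
    obtain ⟨r1, hr1, hr1r, B, hB⟩ := h.bound1 hε hγ hM0
    have h' := h.mono hr1 hr1r.le
    obtain ⟨q, hq, r', hr'r, m', sm', m0', hM', hBS⟩ := h'.prol hγ
      (mt := fun p => m (p.1, p.2.1, p.2.2.1, ContinuousLinearMap.fst ℝ F F p.2.2.2))
      (SF_comp_clm sm (ContinuousLinearMap.fst ℝ F F)) (fun x z => m0 _ _)
      (fun x hx => hM x ⟨hx.1, hx.2.trans hr1r⟩) hB
    obtain ⟨r2, hr2, B2, hB2⟩ := ih hε (by linarith) hBS m' sm' m0' hM'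
    set L : (F × F) →L[ℝ] F := q⁻¹ • ContinuousLinearMap.snd ℝ F F with hL
    have hfun : (fun x => L (w x, q • th w x)) = th w := by
      funext x
      simp [hL, smul_smul, inv_mul_cancel₀ hq.ne']
    refine ⟨min r2 r', lt_min hr2 hBS.rpos, ‖L‖ * B2, fun x hx => ?_⟩
    have hx1 : x ∈ Ioo 0 r' := ⟨hx.1, hx.2.trans_le (min_le_right _ _)⟩
    have hx2 : x ∈ Ioo 0 r2 := ⟨hx.1, hx.2.trans_le (min_le_left _ _)⟩
    have e1 := th_iter_clm L isOpen_Ioo k hBS.sw x hx1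
    rw [hfun] at e1
    rw [Function.iterate_succ_apply, e1]
    exact (L.le_opNorm _).trans (mul_le_mul_of_nonneg_left (hB2 x hx2) (norm_nonneg _))

end Pool.Agent.Helper75.Bil
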